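import Pool.Agent.K1H22.OG.Stm

/-!
# Kummer theory for `ℚ(ζ_d, q^(1/d) : q ∈ s)`: `S_KUM` (task T6 of helper22)
-/

set_option autoImplicit false

namespace Pool.Agent.K1H6.OGK

open Finset NumberField Polynomial IsDedekindDomain

/-- a valuation of a cyclotomic field which is unramified over `p` -/
theorem exists_val (d : ℕ) [NeZero d] (K : Type*) [Field K] [NumberField K]
    [IsCyclotomicExtension {d} ℚ K] (p : ℕ) (hp : p.Prime) (hpd : ¬ p ∣ d) :
    ∃ v : Valuation K (WithZero (Multiplicative ℤ)), v (p : K) = WithZero.exp (-1 : ℤ) ∧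
      ∀ q : ℕ, q.Prime → q ≠ p → v (q : K) = 1 := by
  have : Fact p.Prime := ⟨hp⟩
  have hpZ : Prime (p : ℤ) := Nat.prime_iff_prime_int.mp hp
  let u : HeightOneSpectrum ℤ := ⟨Ideal.span {(p : ℤ)},
    (Ideal.span_singleton_prime hpZ.ne_zero).mpr hpZ, by
      simpa [Ideal.span_singleton_eq_bot] using hp.ne_zero⟩
  have : (Ideal.span {(p : ℤ)}).IsPrime := u.isPrime
  obtain ⟨⟨P, hP1, hP2⟩⟩ := (Ideal.span {(p : ℤ)}).nonempty_primesOver (S := 𝓞 K)
  have hPne : P ≠ ⊥ := Ideal.ne_bot_of_liesOver_of_ne_bot u.ne_bot P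
  let w : HeightOneSpectrum (𝓞 K) := ⟨P, hP1, hPne⟩
  have : w.asIdeal.LiesOver u.asIdeal := hP2
  have hram : u.asIdeal.ramificationIdx' w.asIdeal = 1 := by
    have h1 := IsCyclotomicExtension.Rat.ramificationIdx_eq_of_not_dvd p K P hpd
    rw [Ideal.ramificationIdx'_eq_ramificationIdx u.asIdeal w.asIdeal u.ne_bot]
    exact h1
  have key : ∀ q : ℕ, w.valuation K (q : K) = u.intValuation (q : ℤ) := by
    intro q
    have h := HeightOneSpectrum.valuation_liesOver (K := ℚ) K u w (q : ℚ)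
    have e : algebraMap ℚ K (q : ℚ) = (q : K) := map_natCast _ _
    rw [hram, pow_one, e] at h
    rw [← h]
    have h2 := HeightOneSpectrum.valuation_of_algebraMap (K := ℚ) u (q : ℤ)
    rw [← h2]
    have e3 : algebraMap ℤ ℚ (q : ℤ) = (q : ℚ) := by simp
    exact congrArg _ e3.symm
  refine ⟨w.valuation K, ?_, ?_⟩
  · rw [key]
    exact HeightOneSpectrum.intValuation_singleton u hpZ.ne_zero rfl
  · intro q hq hne
    rw [key, HeightOneSpectrum.intValuation_eq_one_iff]
    intro hmem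
    change (q : ℤ) ∈ Ideal.span {(p : ℤ)} at hmem
    rw [Ideal.mem_span_singleton] at hmem
    have : p ∣ q := by exact_mod_cast hmem
    exact hne ((Nat.prime_dvd_prime_iff_eq hp hq).mp this).symm

/-- the exponents are determined modulo `d` -/
theorem exps_eq (d : ℕ) [NeZero d] (K : Type*) [Field K] [NumberField K]
    [IsCyclotomicExtension {d} ℚ K] (s : Finset ℕ) (hs : ∀ q ∈ s, q.Prime ∧ ¬ q ∣ d)
    (b b' : ℕ → ℕ) (hb : ∀ q ∈ s, b q < d) (hb' : ∀ q ∈ s, b' q < d) (γ : K)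
    (hγ : γ ^ d * ∏ q ∈ s, (q : K) ^ b' q = ∏ q ∈ s, (q : K) ^ b q) :
    ∀ q ∈ s, b q = b' q := by
  intro p hp
  obtain ⟨v, hv1, hv2⟩ := exists_val d K p (hs p hp).1 (hs p hp).2
  have hprod : ∀ c : ℕ → ℕ, v (∏ q ∈ s, (q : K) ^ c q) = WithZero.exp (-(c p : ℤ)) := by
    intro c
    rw [map_prod, Finset.prod_eq_single p]
    · rw [map_pow, hv1, ← WithZero.exp_nsmul]
      simp
    · intro q hq hne
      rw [map_pow, hv2 q (hs q hq).1 hne, one_pow]
    · intro h; exact absurd hp h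
  have hne : γ ≠ 0 := by
    rintro rfl
    rw [zero_pow (NeZero.ne d), zero_mul] at hγ
    have := hprod b
    rw [← hγ, map_zero] at this
    exact WithZero.exp_ne_zero this.symm
  obtain ⟨k, hk⟩ : ∃ k : ℤ, v γ = WithZero.exp k := by
    have h0 : v γ ≠ 0 := (Valuation.ne_zero_iff v).mpr hne
    exact ⟨WithZero.log (v γ), (WithZero.exp_log h0).symm⟩
  have h := congrArg v hγ
  rw [map_mul, map_pow, hprod, hprod, hk, ← WithZero.exp_nsmul, ← WithZero.exp_add,
    WithZero.exp_inj] at h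
  have h3 : (d : ℤ) * k = (b' p : ℤ) - b p := by
    rw [nsmul_eq_mul] at h; linarith
  have h1 := hb p hp
  have h2 := hb' p hp
  have h4 : (d : ℤ) ∣ (b' p : ℤ) - b p := ⟨k, h3.symm⟩
  have h5 : (b' p : ℤ) - b p = 0 := by
    apply Int.eq_zero_of_abs_lt_dvd h4
    rw [abs_lt]; constructor <;> omega
  omega


section main

variable {L : Type*} [Field L] [NumberField L] [IsGalois ℚ L]

/-- the characters `g ↦ g(β_b) / β_b` -/
noncomputable def chi (d : ℕ) (ζ : L) (hd : d ≠ 0) (hζ : IsPrimitiveRoot ζ d) (β : L) (hβ : β ≠ 0)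
    (hβd : ∃ r : ℚ, β ^ d = algebraMap ℚ L r) : MulAction.stabilizer Gal(L/ℚ) ζ →* L where
  toFun g := (g : Gal(L/ℚ)) β / β
  map_one' := by simp [hβ]
  map_mul' := by
    intro g h
    obtain ⟨r, hr⟩ := hβd
    have h1 : (((h : Gal(L/ℚ)) β) / β) ^ d = 1 := by
      rw [div_pow, ← map_pow, hr, AlgEquiv.commutes, div_self]
      rw [← hr]; exact pow_ne_zero _ hβ
    have : NeZero d := ⟨hd⟩
    obtain ⟨i, -, hi⟩ := hζ.eq_pow_of_pow_eq_one h1
    have hg : (g : Gal(L/ℚ)) ζ = ζ := g.2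
    have h2 : (g : Gal(L/ℚ)) (((h : Gal(L/ℚ)) β) / β) = ((h : Gal(L/ℚ)) β) / β := by
      rw [← hi, map_pow, hg]
    rw [map_div₀] at h2
    have h3 : (g : Gal(L/ℚ)) β ≠ 0 := (_root_.map_ne_zero _).mpr hβ
    change (g : Gal(L/ℚ)) ((h : Gal(L/ℚ)) β) / β = _
    have h4 : (g : Gal(L/ℚ)) ((h : Gal(L/ℚ)) β) = ((h : Gal(L/ℚ)) β) / β * (g : Gal(L/ℚ)) β := by
      rw [← h2, div_mul_cancel₀ _ h3]
    rw [h4]; ring

/-- the lower bound of Kummer theory -/
theorem card_ge (d : ℕ) [NeZero d] (s : Finset ℕ) (hs : ∀ q ∈ s, q.Prime ∧ ¬ q ∣ d) (ζ : L)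
    (hζ : IsPrimitiveRoot ζ d) (α : ℕ → L) (hα : ∀ q ∈ s, α q ^ d = (q : L)) :
    d ^ s.card ≤ Nat.card {g : Gal(L/ℚ) // g ζ = ζ} := by
  classical
  have hd : d ≠ 0 := NeZero.ne d
  have hα0 : ∀ q ∈ s, α q ≠ 0 := by
    intro q hq h0
    have := hα q hq
    rw [h0, zero_pow hd] at this
    exact (hs q hq).1.ne_zero (by exact_mod_cast this.symm)
  let β : (s → Fin d) → L := fun b => ∏ q : s, α q ^ (b q : ℕ)
  have hβ : ∀ b, β b ≠ 0 := fun b => Finset.prod_ne_zero_iff.mpr fun q _ => pow_ne_zero _ (hα0 q q.2)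
  have hβd : ∀ b, β b ^ d = ∏ q : s, ((q : ℕ) : L) ^ (b q : ℕ) := by
    intro b
    rw [← Finset.prod_pow]
    refine Finset.prod_congr rfl fun q _ => ?_
    rw [← pow_mul, mul_comm, pow_mul, hα q q.2]
  have hβr : ∀ b, ∃ r : ℚ, β b ^ d = algebraMap ℚ L r := by
    intro b
    refine ⟨∏ q : s, ((q : ℕ) : ℚ) ^ (b q : ℕ), ?_⟩
    rw [hβd, map_prod]
    refine Finset.prod_congr rfl fun q _ => ?_
    rw [map_pow, map_natCast]
  let X : (s → Fin d) → (MulAction.stabilizer Gal(L/ℚ) ζ →* L) := fun b =>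
    chi d ζ hd hζ (β b) (hβ b) (hβr b)
  have hK : IsCyclotomicExtension {d} ℚ (IntermediateField.adjoin ℚ {ζ}) :=
    hζ.intermediateField_adjoin_isCyclotomicExtension ℚ
  have hinj : Function.Injective X := by
    intro b b' hbb
    have hfix : ∀ g : Gal(L/ℚ), g ζ = ζ → g (β b / β b') = β b / β b' := by
      intro g hg
      have h1 := DFunLike.congr_fun hbb ⟨g, hg⟩
      change g (β b) / β b = g (β b') / β b' at h1
      rw [map_div₀]
      have h2 : g (β b') ≠ 0 := (_root_.map_ne_zero _).mpr (hβ b')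
      rw [div_eq_div_iff (hβ b) (hβ b')] at h1
      rw [div_eq_div_iff h2 (hβ b')]
      rw [h1]; ring
    have hmem : β b / β b' ∈ IntermediateField.adjoin ℚ {ζ} := by
      rw [← IsGalois.fixedField_fixingSubgroup (IntermediateField.adjoin ℚ {ζ})]
      rw [IntermediateField.mem_fixedField_iff]
      intro g hg
      apply hfix
      rw [IntermediateField.mem_fixingSubgroup_iff] at hg
      exact hg ζ (IntermediateField.mem_adjoin_simple_self ℚ ζ)
    obtain ⟨γ, hγ⟩ : ∃ γ : IntermediateField.adjoin ℚ {ζ}, (γ : L) = β b / β b' := ⟨⟨_, hmem⟩, rfl⟩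
    let e : (s → Fin d) → ℕ → ℕ := fun c q => if h : q ∈ s then (c ⟨q, h⟩ : ℕ) else 0
    have hprod : ∀ c : s → Fin d, ∏ q ∈ s, ((q : ℕ) : L) ^ e c q = β c ^ d := by
      intro c
      rw [hβd, ← Finset.prod_coe_sort]
      refine Finset.prod_congr rfl fun q _ => ?_
      simp [e]
    have h := exps_eq d (IntermediateField.adjoin ℚ {ζ}) s hs (e b) (e b')
      (fun q hq => by simp [e, hq]) (fun q hq => by simp [e, hq]) γ (by
        apply Subtype.coe_injective
        push_cast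
        rw [hγ, hprod, hprod, div_pow, div_mul_cancel₀]
        exact pow_ne_zero _ (hβ b'))
    funext q
    have := h q q.2
    simp only [e, q.2, dif_pos] at this
    exact Fin.ext this
  have hli : LinearIndependent L (fun b : s → Fin d =>
      (X b : MulAction.stabilizer Gal(L/ℚ) ζ → L)) :=
    (linearIndependent_monoidHom (MulAction.stabilizer Gal(L/ℚ) ζ) L).comp X hinj
  have hcard := hli.fintype_card_le_finrank
  rw [Module.finrank_fintype_fun_eq_card] at hcard
  rw [Fintype.card_fun, Fintype.card_fin, Fintype.card_coe] at hcard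
  rw [← Nat.card_eq_fintype_card] at hcard
  exact hcard

end main

theorem t_KUM : Pool.Agent.K1H22.OG.S_KUM := by
  intro d s hd hs
  have : NeZero d := ⟨by omega⟩
  have hd0 : d ≠ 0 := NeZero.ne d
  let f : ℚ[X] := (X ^ d - 1) * ∏ q ∈ s, (X ^ d - C (q : ℚ))
  have hf1 : (X ^ d - 1 : ℚ[X]) ≠ 0 := by
    have := X_pow_sub_C_ne_zero (R := ℚ) (by omega : 0 < d) 1
    simpa using this
  have hf2 : ∀ q : ℕ, (X ^ d - C (q : ℚ) : ℚ[X]) ≠ 0 := fun q =>
    X_pow_sub_C_ne_zero (by omega) _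
  have hf : f ≠ 0 := mul_ne_zero hf1 (Finset.prod_ne_zero_iff.mpr fun q _ => hf2 q)
  let S : Set ℂ := f.rootSet ℂ
  let L : IntermediateField ℚ ℂ := IntermediateField.adjoin ℚ S
  have hspl : IsSplittingField ℚ L f := IntermediateField.adjoin_rootSet_isSplittingField
    (IsAlgClosed.splits _)
  have hfd : FiniteDimensional ℚ L := IsSplittingField.finiteDimensional L f
  have hnf : NumberField L := { to_charZero := inferInstance, to_finiteDimensional := hfd }
  have hnorm : Normal ℚ L := Normal.of_isSplittingField f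
  have hgal : IsGalois ℚ L := {}
  have hmemS : ∀ x : ℂ, x ∈ S ↔ x ^ d = 1 ∨ ∃ q ∈ s, x ^ d = (q : ℂ) := by
    intro x
    have h0 : aeval x f = (x ^ d - 1) * ∏ q ∈ s, (x ^ d - (q : ℂ)) := by
      simp only [f, map_mul, map_prod, map_sub, map_pow, aeval_X, map_one, map_natCast]
    change x ∈ f.rootSet ℂ ↔ _
    rw [mem_rootSet, h0, mul_eq_zero, Finset.prod_eq_zero_iff]
    simp only [sub_eq_zero]
    exact ⟨fun h => h.2, fun h => ⟨hf, h⟩⟩
  have hz : Complex.exp (2 * Real.pi * Complex.I / d) ∈ L :=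
    IntermediateField.subset_adjoin ℚ S ((hmemS _).mpr
      (Or.inl (Complex.isPrimitiveRoot_exp d hd0).pow_eq_one))
  have ha : ∀ q : ℕ, ∃ y : L, q ∈ s → y ^ d = (q : L) := by
    intro q
    by_cases hq : q ∈ s
    · obtain ⟨y, hy⟩ := IsAlgClosed.exists_pow_nat_eq (q : ℂ) (by omega : 0 < d)
      refine ⟨⟨y, IntermediateField.subset_adjoin ℚ S ((hmemS y).mpr (Or.inr ⟨q, hq, hy⟩))⟩, ?_⟩
      intro _
      apply Subtype.coe_injective
      push_cast
      exact hy
    · exact ⟨0, fun h => absurd h hq⟩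
  choose α hα using ha
  have hζ : IsPrimitiveRoot (⟨_, hz⟩ : L) d := by
    have h := Complex.isPrimitiveRoot_exp d hd0
    exact (IsPrimitiveRoot.coe_submonoidClass_iff (M := ℂ) (N := L)).mp h
  refine ⟨L, inferInstance, hnf, hgal, ⟨_, hz⟩, α, hζ, fun q hq => hα q hq, ?_, ?_⟩
  · intro g hg1 hg2
    have h1 : (g : L →ₐ[ℚ] L) = (AlgHom.id ℚ L) := by
      refine IntermediateField.algHom_ext_of_eq_adjoin (F := ℚ) (E := ℂ) (S := L) (s := S) rfl ?_
      intro x hx
      rcases (hmemS x).mp hx with h | ⟨q, hq, h⟩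
      · obtain ⟨i, -, hi⟩ := hζ.eq_pow_of_pow_eq_one
          (ξ := ⟨x, IntermediateField.subset_adjoin ℚ S hx⟩) (by
            apply Subtype.coe_injective; push_cast; exact h)
        change g ⟨x, _⟩ = ⟨x, _⟩
        rw [← hi, map_pow, hg1]
      · have hα0 : α q ≠ 0 := by
          intro h0
          have := hα q hq
          rw [h0, zero_pow hd0] at this
          exact (hs q hq).1.ne_zero (by exact_mod_cast this.symm)
        have hx2 : ((⟨x, IntermediateField.subset_adjoin ℚ S hx⟩ : L) / α q) ^ d = 1 := by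
          rw [div_pow, hα q hq, div_eq_one_iff_eq]
          · apply Subtype.coe_injective; push_cast; exact h
          · rw [← hα q hq]; exact pow_ne_zero _ hα0
        obtain ⟨i, -, hi⟩ := hζ.eq_pow_of_pow_eq_one hx2
        have hx3 : (⟨x, IntermediateField.subset_adjoin ℚ S hx⟩ : L) = (⟨_, hz⟩ : L) ^ i * α q := by
          rw [hi, div_mul_cancel₀ _ hα0]
        change g ⟨x, _⟩ = ⟨x, _⟩
        rw [hx3, map_mul, map_pow, hg1, hg2 q hq]
    ext x
    have := DFunLike.congr_fun h1 x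
    exact congrArg _ this
  · exact card_ge d s hs _ hζ α (fun q hq => hα q hq)

end Pool.Agent.K1H6.OGK
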